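import Pool.Agent.H641R2.GD.InNP

/-!
# Global domination with a fixed number of Hamiltonian path factors is NP-complete

For every fixed `k ≥ 2` the problem `GD_k` (given `k` pairwise edge-disjoint Hamiltonian paths on
`{0, ..., n-1}` and a number `M`, is the global domination number at most `M`?) is NP-complete.

The reduction is from 3SAT. Five-vertex gadgets which need two vertices in any dominating set, and
three-vertex blocks which need one, make the bound `M = 8P` tight everywhere; then every pair
`a_q, b_q` of literals contains at most one chosen vertex, the guard vertices of the blocks at the
beginning of the second path are never chosen, and the remaining triples of consecutive vertices of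
the first path express the formula.
-/

namespace Pool.Agent.Results.MP_699b34_lc.PathFactorsNPComplete

open Pool.Agent.NPC Pool.Agent.H641R2.GlobDom

/-- `GD_k` is NP-complete for every fixed `k ≥ 2`. -/
theorem result : ∀ k : ℕ, 2 ≤ k → InNPP (GD k) ∧ NPHardP (GD k) :=
  fun k hk => ⟨inNPP_GD k (by omega), npHard_GD k hk⟩

end Pool.Agent.Results.MP_699b34_lc.PathFactorsNPComplete
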